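import Pool.Agent.helper62.LL.SpecK

/-!
# Row `ll:HAM` (MP_07c750_an)

The number of words near a word.
-/

set_option autoImplicit false

namespace Pool.Agent.LL

theorem HAM_proof : HAM_stmt := by
  intro p N m w t ht ht1
  classical
  have h1 : ∑ w' : Fin N → Fin p, t ^ (Finset.univ.filter (fun i => w' i ≠ w i)).card =
      ∏ i : Fin N, ∑ j : Fin p, (if j = w i then (1 : ℝ) else t) := by
    rw [Finset.prod_univ_sum, Fintype.piFinset_univ]
    refine Finset.sum_congr rfl fun w' _ => ?_
    rw [Finset.prod_ite, Finset.prod_const_one, one_mul, Finset.prod_const]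
  have h2 : ∀ i : Fin N, ∑ j : Fin p, (if j = w i then (1 : ℝ) else t) ≤ 1 + p * t := by
    intro i
    calc ∑ j : Fin p, (if j = w i then (1 : ℝ) else t) ≤ ∑ j : Fin p, ((if j = w i then (1 : ℝ) else 0) + t) := by
          refine Finset.sum_le_sum fun j _ => ?_
          split_ifs <;> linarith
      _ = 1 + p * t := by
          rw [Finset.sum_add_distrib, Finset.sum_ite_eq', if_pos (Finset.mem_univ _), Finset.sum_const, Finset.card_univ,
            Fintype.card_fin, nsmul_eq_mul]
  have h3 : ∏ i : Fin N, ∑ j : Fin p, (if j = w i then (1 : ℝ) else t) ≤ (1 + p * t) ^ N := by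
    calc ∏ i : Fin N, ∑ j : Fin p, (if j = w i then (1 : ℝ) else t) ≤ ∏ _i : Fin N, (1 + p * t) := by
          refine Finset.prod_le_prod (fun i _ => Finset.sum_nonneg fun j _ => ?_) fun i _ => h2 i
          split_ifs <;> linarith
      _ = (1 + p * t) ^ N := by
          rw [Finset.prod_const, Finset.card_univ, Fintype.card_fin]
  rw [← h1] at h3
  refine le_trans ?_ h3
  have h4 : ({w' : Fin N → Fin p | (Finset.univ.filter (fun i => w' i ≠ w i)).card ≤ m}.ncard) =
      (Finset.univ.filter (fun w' : Fin N → Fin p => (Finset.univ.filter (fun i => w' i ≠ w i)).card ≤ m)).card := by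
    rw [← Set.ncard_coe_finset]
    congr 1
    ext w'
    simp
  rw [h4, ← nsmul_eq_mul]
  refine le_trans (Finset.card_nsmul_le_sum _ (fun w' => t ^ (Finset.univ.filter (fun i => w' i ≠ w i)).card) _ fun w' hw' => ?_)
    (Finset.sum_le_sum_of_subset_of_nonneg (Finset.filter_subset _ _) fun w' _ _ => pow_nonneg ht.le _)
  exact pow_le_pow_of_le_one ht.le ht1 (Finset.mem_filter.1 hw').2

end Pool.Agent.LL
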